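import Pool.Agent.Lib.MP_aaa104_nt.H3Table

set_option autoImplicit false

namespace Pool.Agent.Results.MP_aaa104_nt.InfinitelyMany

/-- The group of positive rationals a/b with a, b both n-smooth (all prime factors at most n). -/
def Khat (n : ℕ) : Set ℚ :=
  {x | ∃ a b : ℕ, 0 < a ∧ 0 < b ∧ (∀ p : ℕ, p.Prime → p ∣ a → p ≤ n) ∧
    (∀ p : ℕ, p.Prime → p ∣ b → p ≤ n) ∧ x = (a : ℚ) / (b : ℚ)}

/-- c is an n-satisfactory coloring of Khat n (values of c off Khat n play no role). -/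
def Satisfactory (n : ℕ) (c : ℚ → ℕ) : Prop :=
  (∀ x ∈ Khat n, 1 ≤ c x ∧ c x ≤ n) ∧
  (∀ i : ℕ, 1 ≤ i → i ≤ n → c (i : ℚ) = i) ∧
  (∀ x ∈ Khat n, ∀ i j : ℕ, 1 ≤ i → i < j → j ≤ n → c ((i : ℚ) * x) ≠ c ((j : ℚ) * x))

/-- The color class of color k. -/
def colorClass (n : ℕ) (c : ℚ → ℕ) (k : ℕ) : Set ℚ := {x | x ∈ Khat n ∧ c x = k}

/-- The part with index i of the partition induced by X: all y in Khat n with y / i in X. -/
def part (n : ℕ) (X : Set ℚ) (i : ℕ) : Set ℚ := {y | y ∈ Khat n ∧ y / (i : ℚ) ∈ X}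

theorem result (n : ℕ) (h6 : 6 ≤ n) (hn : ¬n.Prime)
    (hp : (n + 1).Prime ∨ (2 * n + 1).Prime) :
    ∃ c : ℚ → ℕ, Satisfactory n c ∧ ∀ k : ℕ, 1 ≤ k → k ≤ n → ∃ i : ℕ, 1 ≤ i ∧ i ≤ n ∧
      ∀ l : ℕ, part n (colorClass n c k) i ≠ colorClass n c l := by
  obtain ⟨c, hc, hi⟩ : ∃ c : ℚ → ℕ, Pool.Agent.Lib.MP_aaa104_nt.Satisfactory n c ∧
      Pool.Agent.Lib.MP_aaa104_nt.Inv n c :=
    hp.elim (fun h => Pool.Agent.Lib.MP_aaa104_nt.exists_mod h)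
      (Pool.Agent.Lib.MP_aaa104_nt.exists_half (by omega))
  exact (Pool.Agent.Lib.MP_aaa104_nt.datum h6 hn hc hi).strong (by omega)

end Pool.Agent.Results.MP_aaa104_nt.InfinitelyMany
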